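import Pool.Agent.H14.PD.Stmts

set_option autoImplicit false

namespace Pool.Agent.H14.PD

theorem pd_slp_en1 {V S : Type} (M : Mc V S) (w : List S) : ∀ y : V × ℤ,
    (en M.lact y w).1 = en M.act y.1 w := by
  induction w with
  | nil => intro y; rfl
  | cons s w ih => intro y; exact ih (M.lact y s)

theorem pd_slp_tr {V S : Type} (M : Mc V S) (a b : ℤ) (w : List S) : ∀ y : V × ℤ,
    Tr (M.slab a b).lab M.lact y w → Tr M.lf.lab M.lact y w := by
  induction w with
  | nil => intro y _; trivial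
  | cons s w ih => intro y h; exact ⟨h.1.1, ih _ h.2⟩

theorem pd_slp_tr2 {V S : Type} (M : Mc V S) (w : List S) : ∀ y : V × ℤ,
    (Tr M.lf.lab M.lact y w ↔ Tr M.lab M.act y.1 w) := by
  induction w with
  | nil => intro y; exact Iff.rfl
  | cons s w ih => intro y; exact and_congr Iff.rfl (ih (M.lact y s))

theorem pd_slp_small {V S : Type} (M : Mc V S) (w : List S) : ∀ y : V × ℤ,
    Tr M.lf.lab M.lact y w → (∀ s ∈ w, ¬ M.big s) →
    |(en M.lact y w).2 - y.2| ≤ w.length := by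
  induction w with
  | nil => intro y _ _; simp [en]
  | cons s w ih =>
    intro y h hs
    have h1 := ih (M.lact y s) h.2 (fun t ht => hs t (List.mem_cons_of_mem _ ht))
    have h2 := M.eta_small y.1 s h.1 (hs s List.mem_cons_self)
    have h3 : (M.lact y s).2 = y.2 + M.eta y.1 s := rfl
    have h4 : en M.lact y (s :: w) = en M.lact (M.lact y s) w := rfl
    rw [h4, List.length_cons]
    push_cast
    rw [abs_le] at h1 ⊢
    rw [h3] at h1
    rcases h2 with h2 | h2 <;> rw [h2] at h1 <;> constructor <;> linarith [h1.1, h1.2]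

theorem pd_slp_all {V S : Type} (M : Mc V S) (w : List S) : ∀ y : V × ℤ,
    Tr M.lf.lab M.lact y w → |(en M.lact y w).2 - y.2| ≤ M.m * w.length := by
  induction w with
  | nil => intro y _; simp [en]
  | cons s w ih =>
    intro y h
    have h1 := ih (M.lact y s) h.2
    have hm : (1 : ℤ) ≤ M.m := by exact_mod_cast M.m_pos
    have h2 : -(M.m : ℤ) ≤ M.eta y.1 s ∧ M.eta y.1 s ≤ M.m := by
      by_cases hb : M.big s
      · rcases M.eta_big y.1 s h.1 hb with h2 | h2 <;> rw [h2] <;> constructor <;> linarith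
      · rcases M.eta_small y.1 s h.1 hb with h2 | h2 <;> rw [h2] <;> constructor <;> linarith
    have h3 : (M.lact y s).2 = y.2 + M.eta y.1 s := rfl
    have h4 : en M.lact y (s :: w) = en M.lact (M.lact y s) w := rfl
    rw [h4, List.length_cons]
    push_cast
    rw [abs_le] at h1 ⊢
    rw [h3] at h1
    constructor <;> nlinarith [h1.1, h1.2, h2.1, h2.2]

theorem pd_slp_end {V S : Type} (M : Mc V S) (a b : ℤ) (w : List S) : ∀ y : V × ℤ,
    M.Sl a b y w → a ≤ (en M.lact y w).2 ∧ (en M.lact y w).2 ≤ b := by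
  induction w with
  | nil => intro y h; exact h.1
  | cons s w ih =>
    intro y h
    exact ih (M.lact y s) ⟨h.2.1.2.2, h.2.2⟩

theorem pd_slp_mono {V S : Type} (M : Mc V S) (a b a' b' : ℤ) (ha : a' ≤ a) (hb : b ≤ b')
    (w : List S) : ∀ y : V × ℤ, M.Sl a b y w → M.Sl a' b' y w := by
  induction w with
  | nil => intro y h; exact ⟨⟨ha.trans h.1.1, h.1.2.trans hb⟩, trivial⟩
  | cons s w ih =>
    intro y h
    have h1 := h.2.1
    have h2 := ih (M.lact y s) ⟨h.2.1.2.2, h.2.2⟩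
    exact ⟨⟨ha.trans h.1.1, h.1.2.trans hb⟩, ⟨h1.1, ⟨ha.trans h1.2.1.1, h1.2.1.2.trans hb⟩,
      ⟨ha.trans h1.2.2.1, h1.2.2.2.trans hb⟩⟩, h2.2⟩

theorem pd_slp : M_SLP := by
  intro hT V S M a b
  refine ⟨fun y w => pd_slp_en1 M w y, fun y w => pd_slp_tr M a b w y,
    fun y w => pd_slp_tr2 M w y, fun y w => pd_slp_small M w y, fun y w => pd_slp_all M w y,
    ?_, fun y w => pd_slp_end M a b w y, ?_, fun a' b' y w ha hb => pd_slp_mono M a b a' b' ha hb w y⟩
  · intro y u v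
    obtain ⟨hT1, hT2, hT3, hT4⟩ := hT (V × ℤ) S (M.slab a b).lab M.lact
    constructor
    · intro h
      have h1 := (hT1 y u v).1 h.2
      exact ⟨⟨h.1, h1.1⟩, ⟨pd_slp_end M a b u y ⟨h.1, h1.1⟩, h1.2⟩⟩
    · rintro ⟨h1, h2⟩
      exact ⟨h1.1, (hT1 y u v).2 ⟨h1.2, h2.2⟩⟩
  · intro y w h
    obtain ⟨hT1, hT2, hT3, hT4⟩ := hT (V × ℤ) S (M.slab a b).lab M.lact
    exact ⟨pd_slp_end M a b w y h, (hT4 (M.slab a b).inv y w h.2).1⟩

end Pool.Agent.H14.PD
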